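import Pool.Agent.Lib_helper51.OK6.Y8a
import Pool.Agent.Lib_helper28.OW.G4c

/-!
# Six colours, residue 3: a clone set whose complement is a low clique with four vertices (2)
-/

set_option autoImplicit false
set_option linter.unusedSectionVars false
set_option linter.unusedVariables false

open scoped Classical
open Finset
open Pool.Agent.O2 (PC Cb CrOn pr ms dg nd addE)
open Pool.Agent.O3 (con hit Clq Non)
open Pool.Agent.OW28 (NoCE Add1)
open Pool.Agent.OW
open Pool.Agent.OX28
open Pool.Agent.OX22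
open Pool.Agent.OX63

namespace Pool.Agent.OK6

variable {V : Type} {G : SimpleGraph V} {S : Finset V}

theorem b6_four (m : ℕ) : (m % 6 = 0 → b6 m = b6 (m + 4) + 6) ∧
    (m % 6 = 1 → b6 m = b6 (m + 4)) ∧ (m % 6 = 2 → b6 m + 8 = b6 (m + 4)) := by
  unfold b6 v6
  refine ⟨?_, ?_, ?_⟩ <;>
  · intro h
    split_ifs <;> omega

/-- `Y = 8` is impossible -/
theorem c1_r3_8 (h : Cex G S 6 b6) (hr : (S.card - 1) % 6 = 3) {x v : V} {R : Finset V}
    (p : P1 G S x v) (c : Cs G S x v R) (hm : (R.card - 1) % 6 = 5)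
    (hY : Yy G 6 b6 R ≤ 8) : False := by
  have hM := low_r3_5 h hr c.RS c.ne c.card hm hY
  have htw := fun a ha b hb h1 h2 h3 =>
    off_twins h p c hM (a := a) (b := b) ha hb h1 h2 h3
  obtain ⟨hM1, hM2, hM3⟩ := hM
  have hAS : S \ R ⊆ S := sdiff_subset
  have hvA : v ∈ S \ R := mem_sdiff.2 ⟨p.hv, c.vR⟩
  have hxA : ∀ m ∈ S \ R, m ≠ v → ¬ G.Adj m x := by
    intro m hm hmv hmx
    exact (mem_sdiff.1 hm).2 (c.cn (Pool.Agent.OW.mem_cn.2 (Or.inr ⟨hmv, (mem_sdiff.1 hm).1,
      hmx.symm⟩)))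
  have hxR := c.xR
  have e : S \ (S \ R) = R := Finset.sdiff_sdiff_eq_self c.RS
  have hRc : R.card + 4 = S.card := by
    have := card_sdiff_add_card_eq_card c.RS
    omega
  obtain ⟨a, ha⟩ := card_pos.1 (show 0 < ((S \ R).erase v).card by
    rw [card_erase_of_mem hvA, hM1]; omega)
  obtain ⟨hav, haA⟩ := mem_erase.1 ha
  have hNR : on G S (S \ R) a ⊆ R := by
    intro y hy
    have h1 := (mem_on.1 hy).1
    by_contra hyR
    exact h1.2 (mem_sdiff.2 ⟨h1.1, hyR⟩)
  have hNc : (on G S (S \ R) a).card = 3 := by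
    have h1 := out_card hAS hM2 haA
    rw [hM3 a haA, hM1] at h1
    unfold on
    omega
  have hxN : x ∉ on G S (S \ R) a := fun h1 => hxA a haA hav (mem_on.1 h1).2
  -- the colour of `x`
  have hcol : ∀ ψ : V → Fin 6, PC G R ψ → ψ x ∈ (on G S (S \ R) a).image ψ := by
    intro ψ hψ
    obtain ⟨Z, hZ, hZm⟩ := low_clq_col h.cr (by omega) hAS hM2 hM3 ⟨v, hvA⟩
      (ψ := ψ) (by rw [e]; exact hψ)
    have h1 : (on G S (S \ R) a).image ψ = Z := hZm a haA
    rw [h1, ← hZm v hvA]
    exact mem_image_of_mem ψ (mem_filter.2 ⟨by rw [e]; exact hxR, p.ad.symm⟩)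
  obtain ⟨W, hWR, hxW, hNW, hnon, hWc, hWY, -⟩ := star3 h hr c.RS (by omega) hxR hNR hxN hNc hcol
  -- the set `W ∪ A`
  have hdis : Disjoint W (S \ R) := by
    rw [disjoint_left]
    intro y hy hyA
    exact (mem_sdiff.1 hyA).2 (hWR hy)
  have hWS : W ⊆ S := hWR.trans c.RS
  have hWne : W ≠ S := by
    rintro rfl
    have := card_le_card hWR
    omega
  have h1 := Pool.Agent.OW28G.df_union G 6 hdis
  have hprA : (pr G (S \ R) (S \ R) : ℤ) = 12 := by
    have h2 : pr G (S \ R) (S \ R) = 12 := by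
      rw [Pool.Agent.O2.pr_sum]
      have h3 : ∀ m ∈ S \ R, dg G (S \ R) m = 3 := by
        intro m hm
        have h4 : ((S \ R).filter fun y => G.Adj m y) = (S \ R).erase m := by
          ext y
          rw [mem_filter, mem_erase]
          exact ⟨fun h5 => ⟨h5.2.ne', h5.1⟩, fun h5 => ⟨h5.2, hM2 m hm y h5.2 h5.1.symm⟩⟩
        unfold dg
        rw [h4, card_erase_of_mem hm, hM1]
      rw [sum_congr rfl h3, sum_const, hM1]
      rfl
    exact_mod_cast h2
  have hprW : (10 : ℤ) ≤ pr G (S \ R) W := by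
    have h2 : 10 ≤ pr G (S \ R) W := by
      rw [Pool.Agent.O2.pr_sum, ← add_sum_erase _ _ hvA]
      have h3 : 1 ≤ dg G W v := by
        unfold dg
        exact card_pos.2 ⟨x, mem_filter.2 ⟨hxW, p.ad.symm⟩⟩
      have h4 : ∀ m ∈ (S \ R).erase v, 3 ≤ dg G W m := by
        intro m hm
        obtain ⟨hmv, hmA⟩ := mem_erase.1 hm
        have h5 : on G S (S \ R) a ⊆ W.filter fun y => G.Adj m y := by
          intro y hy
          refine mem_filter.2 ⟨hNW hy, ?_⟩
          by_cases hma : m = a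
          · rw [hma]; exact (mem_on.1 hy).2
          · have h6 := htw a haA m hmA hav hmv (Ne.symm hma)
            have hyn : ∀ m' ∈ S \ R, y ≠ m' := by
              rintro m' hm' rfl
              exact (mem_on.1 hy).1.2 hm'
            exact (h6.2 y (mem_on.1 hy).1.1 (hyn a haA) (hyn m hmA)).1 (mem_on.1 hy).2
        have h6 := card_le_card h5
        rw [hNc] at h6
        exact h6
      have h5 : ∑ m ∈ (S \ R).erase v, 3 ≤ ∑ m ∈ (S \ R).erase v, dg G W m :=
        sum_le_sum h4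
      rw [sum_const, card_erase_of_mem hvA, hM1] at h5
      simp only [smul_eq_mul] at h5
      omega
    exact_mod_cast h2
  rw [hM1, hprA] at h1
  push_cast at h1
  have hUS : W ∪ (S \ R) ⊆ S := union_subset hWS hAS
  have hUc : (W ∪ (S \ R)).card = W.card + 4 := by
    rw [card_union_of_disjoint hdis, hM1]
  have hWm : (W.card - 1) % 6 = 0 ∨ (W.card - 1) % 6 = 1 ∨ (W.card - 1) % 6 = 2 := by
    obtain ⟨-, -, -, t3, t4, t5⟩ := tab3 h hr hWS hWne hWc
    by_contra hn
    have hlt : (W.card - 1) % 6 < 6 := Nat.mod_lt _ (by omega)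
    have hcase : (W.card - 1) % 6 = 3 ∨ (W.card - 1) % 6 = 4 ∨ (W.card - 1) % 6 = 5 := by omega
    rcases hcase with g | g | g
    · have := t3 g; linarith
    · have := t4 g; linarith
    · have := t5 g; linarith
  have hUne : W ∪ (S \ R) ≠ S := by
    intro h2
    rw [h2] at hUc
    omega
  have eU : (W ∪ (S \ R)).card - 1 = W.card - 1 + 4 := by omega
  have hU4 := Y_four Nm6 h _ hUS hUne (by omega)
  obtain ⟨k0, k1, k2⟩ := b6_four (W.card - 1)
  unfold Yy at hWY hU4
  rw [eU] at hU4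
  rcases hWm with g | g | g
  · have hU10 := ten_r3_4 h hr hUS hUne (by omega) (by omega)
    unfold Yy at hU10
    rw [eU] at hU10
    have := k0 g
    linarith
  · have := k1 g
    linarith
  · have := k2 g
    linarith

end Pool.Agent.OK6
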