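import Pool.Agent.Lib_helper63.OX.C1b

/-!
# Six colours, residue 3: a clone set whose complement is a low clique with four vertices (1)
-/

set_option autoImplicit false
set_option linter.unusedSectionVars false
set_option linter.unusedVariables false

open scoped Classical
open Finset
open Pool.Agent.O2 (PC Cb CrOn pr ms dg nd addE)
open Pool.Agent.O3 (con hit Clq Non)
open Pool.Agent.OW28 (NoCE Add1)
open Pool.Agent.OW
open Pool.Agent.OX28
open Pool.Agent.OX22
open Pool.Agent.OX63

namespace Pool.Agent.OK6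

variable {V : Type} {G : SimpleGraph V} {S : Finset V}

theorem cn_card_le {K : ℕ} {v x : V} (hK : 1 ≤ K) (hv : v ∈ S) (hxv : G.Adj x v)
    (hlow : dg G S x = K) : (Pool.Agent.OW.cn G S v x).card ≤ K := by
  unfold Pool.Agent.OW.cn
  refine (card_insert_le _ _).trans ?_
  have h0 := card_erase_of_mem (mem_filter.2 ⟨hv, hxv⟩ : v ∈ S.filter fun y => G.Adj x y)
  have h1 : (S.filter fun y => G.Adj x y).card = K := hlow
  rw [h0, h1]
  omega

/-- the critical clone graph contains the low clique `A`; every colouring of the rest gives the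
outer neighbours of two vertices of `A` the same colours, each of them once -/
theorem clone_cols {K : ℕ} {A R' : Finset V} {a b : V} (hK : 1 ≤ K) (hA : A ⊆ S) (hq : Clq G A)
    (hlow : ∀ m ∈ A, dg G S m = K) (ha : a ∈ A) (hb : b ∈ A) (hab : a ≠ b)
    (hR' : R' ⊆ S.erase b) (hcn : Pool.Agent.OW.cn G S b a ⊆ R')
    (hcr : CrOn (clo G S b a) (insert b R') K) :
    A ⊆ insert b R' ∧ ∀ ψ : V → Fin K, PC G (R' \ A) ψ →
      ∃ Z : Finset (Fin K), Z.card + A.card = K + 1 ∧
        ∀ m ∈ A, m ≠ b → ((R' \ A).filter fun y => G.Adj m y).image ψ = Z := by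
  have hbR' : b ∉ R' := fun h' => (mem_erase.1 (hR' h')).1 rfl
  have hR'S : R' ⊆ S := hR'.trans (erase_subset _ _)
  have hbS : b ∈ S := hA hb
  have hAcn : ∀ m ∈ A, m ≠ b → m ∈ Pool.Agent.OW.cn G S b a := by
    intro m hm hmb
    apply Pool.Agent.OW.mem_cn.2
    by_cases h1 : m = a
    · exact Or.inl h1
    · exact Or.inr ⟨hmb, hA hm, hq a ha m hm (Ne.symm h1)⟩
  have hAS' : A ⊆ insert b R' := by
    intro m hm
    by_cases hmb : m = b
    · rw [hmb]; exact mem_insert_self _ _
    · exact mem_insert_of_mem (hcn (hAcn m hm hmb))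
  have hqC : Clq (clo G S b a) A := by
    intro p hp q hq' hpq
    by_cases hpb : p = b
    · rw [hpb]
      have hqb : q ≠ b := fun e => hpq (hpb.trans e.symm)
      exact (clo_adj_v' hqb).2 (hAcn q hq' hqb)
    · by_cases hqb : q = b
      · rw [hqb]
        exact ((clo_adj_v' hpb).2 (hAcn p hp hpb)).symm
      · exact (clo_adj hpb hqb).2 (hq p hp q hq' hpq)
  have hlowC : ∀ m ∈ A, dg (clo G S b a) (insert b R') m = K := by
    intro m hm
    apply le_antisymm _ (hcr.dg_ge (hAS' hm))
    by_cases hmb : m = b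
    · refine (card_le_card ?_).trans (cn_card_le hK hbS (hq a ha b hb hab) (hlow a ha))
      intro y hy
      obtain ⟨h1, h2⟩ := mem_filter.1 hy
      rw [hmb] at h2
      exact (clo_adj_v' h2.ne').1 h2
    · have h3 : dg G S m = (S.filter fun y => G.Adj m y).card := rfl
      rw [← hlow m hm, h3]
      apply card_le_card
      intro y hy
      obtain ⟨h1, h2⟩ := mem_filter.1 hy
      by_cases hyb : y = b
      · rw [hyb]
        exact mem_filter.2 ⟨hbS, hq m hm b hb hmb⟩
      · refine mem_filter.2 ⟨hR'S ((mem_insert.1 h1).resolve_left hyb), ?_⟩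
        exact (clo_adj hmb hyb).1 h2
  refine ⟨hAS', ?_⟩
  intro ψ hψ
  have e : insert b R' \ A = R' \ A := by
    ext y
    rw [mem_sdiff, mem_sdiff, mem_insert]
    constructor
    · rintro ⟨h1 | h1, h2⟩
      · exact absurd (h1 ▸ hb) h2
      · exact ⟨h1, h2⟩
    · rintro ⟨h1, h2⟩
      exact ⟨Or.inr h1, h2⟩
  have hψ' : PC (clo G S b a) (insert b R' \ A) ψ := by
    rw [e]
    intro p hp q hq' hpq
    have hpb : p ≠ b := fun h => hbR' (h ▸ (mem_sdiff.1 hp).1)
    have hqb : q ≠ b := fun h => hbR' (h ▸ (mem_sdiff.1 hq').1)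
    exact hψ p hp q hq' ((clo_adj hpb hqb).1 hpq)
  obtain ⟨Z, hZ, hZm⟩ := low_clq_col hcr (by omega) hAS' hqC hlowC ⟨a, ha⟩ hψ'
  refine ⟨Z, hZ, ?_⟩
  intro m hm hmb
  rw [← hZm m hm, e]
  congr 1
  apply filter_congr
  intro y hy
  have hyb : y ≠ b := fun h => hbR' (h ▸ (mem_sdiff.1 hy).1)
  exact (clo_adj hmb hyb).symm

/-- in a clone set whose complement is a low clique, the vertices of the complement other than `v`
are twins -/
theorem off_twins (h : Cex G S 6 b6) {x v : V} {R : Finset V} (p : P1 G S x v)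
    (c : Cs G S x v R) (hM : LowClq G S (S \ R) 6 4) {a b : V} (ha : a ∈ S \ R) (hb : b ∈ S \ R)
    (hav : a ≠ v) (hbv : b ≠ v) (hab : a ≠ b) : Tw G S a b := by
  obtain ⟨hM1, hM2, hM3⟩ := hM
  have hAS : S \ R ⊆ S := sdiff_subset
  have hvA : v ∈ S \ R := mem_sdiff.2 ⟨p.hv, c.vR⟩
  have hxA : ∀ m ∈ S \ R, m ≠ v → ¬ G.Adj m x := by
    intro m hm hmv hmx
    exact (mem_sdiff.1 hm).2 (c.cn (Pool.Agent.OW.mem_cn.2 (Or.inr ⟨hmv, (mem_sdiff.1 hm).1,
      hmx.symm⟩)))
  have hxR := c.xR
  have hxnA : x ∉ S \ R := fun h' => (mem_sdiff.1 h').2 hxR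
  -- the ordered statement
  have key : ∀ a ∈ S \ R, ∀ b ∈ S \ R, a ≠ v → b ≠ v → a ≠ b →
      (tws G S b).card ≤ (tws G S a).card → Tw G S a b := by
    intro a ha b hb hav hbv hab hle
    by_contra hnt
    have hadj := hM2 a ha b hb hab
    have P : P1 G S a b := ⟨hAS ha, hM3 a ha, hAS hb, hadj, hnt, by rw [hM3 b hb]; omega,
      fun _ => hle⟩
    rcases clone6 h P with h1 | ⟨R', c'⟩
    · have h2 := c2 Nm6 h a (hAS ha) (hM3 a ha) b (hAS hb) hadj h1 v p.hv (hM2 a ha v hvA hav)
        hbv.symm (hM3 v hvA)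
      have hxa : x ≠ a := fun e => hxnA (e ▸ ha)
      have h3 := (h2.2 x p.hx hxa p.ad.ne).2 p.ad.symm
      exact hxA a ha hav h3
    · obtain ⟨hAR', hcol⟩ := clone_cols (K := 6) (by omega) hAS hM2 hM3 ha hb hab c'.sub c'.cn
        c'.cr
      rw [hM1] at hcol
      have hbR' := c'.vR
      have hRsub : R' \ (S \ R) ⊆ R := by
        intro y hy
        obtain ⟨h1, h2⟩ := mem_sdiff.1 hy
        by_contra hyR
        exact h2 (mem_sdiff.2 ⟨c'.RS h1, hyR⟩)
      -- the outer neighbours of `v`
      have hNv : (on G S (S \ R) v).card = 3 := by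
        have h1 := out_card hAS hM2 hvA
        rw [hM3 v hvA, hM1] at h1
        unfold on
        omega
      have hxN : x ∈ on G S (S \ R) v := mem_on.2 ⟨⟨p.hx, hxnA⟩, p.ad.symm⟩
      have hsub : ((R' \ (S \ R)).filter fun y => G.Adj v y) ⊆ on G S (S \ R) v := by
        intro y hy
        obtain ⟨h1, h2⟩ := mem_filter.1 hy
        obtain ⟨h3, h4⟩ := mem_sdiff.1 h1
        exact mem_on.2 ⟨⟨c'.RS h3, h4⟩, h2⟩
      have hne : R' \ (S \ R) ≠ S := by
        intro h1
        have h2 : x ∈ S := p.hx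
        have h3 : v ∈ R' \ (S \ R) := by rw [h1]; exact p.hv
        exact (mem_sdiff.1 h3).2 hvA
      obtain ⟨ψ0, hψ0⟩ := (Pool.Agent.O2.cb_fin (by omega : 0 < 6)).1
        (h.cr.sub (sdiff_subset.trans c'.RS) hne)
      obtain ⟨Z0, hZ0, hZm0⟩ := hcol ψ0 hψ0
      have heq : ((R' \ (S \ R)).filter fun y => G.Adj v y) = on G S (S \ R) v := by
        apply eq_of_subset_of_card_le hsub
        have h1 := hZm0 v hvA hbv.symm
        have h2 : (((R' \ (S \ R)).filter fun y => G.Adj v y).image ψ0).card ≤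
            ((R' \ (S \ R)).filter fun y => G.Adj v y).card := card_image_le
        rw [h1] at h2
        omega
      have hxR' : x ∈ R' \ (S \ R) := by
        rw [← heq] at hxN
        exact (mem_filter.1 hxN).1
      -- `x` cannot be recoloured
      have hrec : ∀ ψ : V → Fin 6, PC G (R' \ (S \ R)) ψ → ∀ i : Fin 6, i ≠ ψ x →
          ∃ y ∈ R' \ (S \ R), G.Adj x y ∧ ψ y = i := by
        intro ψ hψ i hi
        by_contra hcon
        push Not at hcon
        have hψ' : PC G (R' \ (S \ R)) (Function.update ψ x i) := by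
          intro y hy z hz hyz
          by_cases hyx : y = x
          · have hzx : z ≠ x := fun e => hyz.ne (hyx.trans e.symm)
            rw [hyx, Function.update_self, Function.update_of_ne hzx]
            exact (hcon z hz (hyx ▸ hyz)).symm
          · by_cases hzx : z = x
            · rw [hzx, Function.update_self, Function.update_of_ne hyx]
              exact hcon y hy (hzx ▸ hyz).symm
            · rw [Function.update_of_ne hyx, Function.update_of_ne hzx]
              exact hψ y hy z hz hyz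
        obtain ⟨Z, hZ, hZm⟩ := hcol ψ hψ
        obtain ⟨Z', hZ', hZm'⟩ := hcol _ hψ'
        have h1 : Z = Z' := by
          rw [← hZm a ha hab, ← hZm' a ha hab]
          apply image_congr
          intro y hy
          have hyx : y ≠ x := by
            rintro rfl
            exact hxA a ha hav (mem_filter.1 (mem_coe.1 hy)).2
          rw [Function.update_of_ne hyx]
        have h2 : ψ x ∈ Z := by
          rw [← hZm v hvA hbv.symm]
          exact mem_image_of_mem ψ (mem_filter.2 ⟨hxR', p.ad.symm⟩)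
        rw [h1, ← hZm' v hvA hbv.symm] at h2
        obtain ⟨y, hy, hyx⟩ := mem_image.1 h2
        have hne' : y ≠ x := by
          rintro rfl
          rw [Function.update_self] at hyx
          exact hi hyx
        rw [Function.update_of_ne hne'] at hyx
        have hinj : Set.InjOn ψ (((R' \ (S \ R)).filter fun y => G.Adj v y : Finset V) : Set V) := by
          rw [← card_image_iff, hZm v hvA hbv.symm, heq, hNv]
          omega
        exact hne' (hinj (mem_coe.2 hy) (mem_coe.2 (mem_filter.2 ⟨hxR', p.ad.symm⟩)) hyx)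
      -- the clone set `R` is not critical
      have hvR' : v ∉ R' \ (S \ R) := fun h1 => (mem_sdiff.1 h1).2 hvA
      have hneW : insert v (R' \ (S \ R)) ≠ insert v R := by
        intro h1
        have h2 : R ⊆ R' := by
          intro y hy
          have h3 : y ∈ insert v (R' \ (S \ R)) := by rw [h1]; exact mem_insert_of_mem hy
          rcases mem_insert.1 h3 with h4 | h4
          · exact absurd (h4 ▸ hy) c.vR
          · exact (mem_sdiff.1 h4).1
        have h3 : S ⊆ insert b R' := by
          intro y hy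
          by_cases hyR : y ∈ R
          · exact mem_insert_of_mem (h2 hyR)
          · exact hAR' (mem_sdiff.2 ⟨hy, hyR⟩)
        have h4 := card_le_card h3
        have h5 := card_insert_le b R'
        have h6 := c'.lt
        omega
      obtain ⟨φ, hφ⟩ := (Pool.Agent.O2.cb_fin (by omega : 0 < 6)).1
        (c.cr.sub (insert_subset_insert v hRsub) hneW)
      have hφG : PC G (R' \ (S \ R)) φ := by
        intro y hy z hz hyz
        have hyv : y ≠ v := fun e => hvR' (e ▸ hy)
        have hzv : z ≠ v := fun e => hvR' (e ▸ hz)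
        exact hφ y (mem_insert_of_mem hy) z (mem_insert_of_mem hz) ((clo_adj hyv hzv).2 hyz)
      have hvx : φ v ≠ φ x := hφ v (mem_insert_self _ _) x (mem_insert_of_mem hxR')
        ((clo_adj_v' p.ad.ne).2 (Pool.Agent.OW.mem_cn.2 (Or.inl rfl)))
      obtain ⟨y, hy, hxy, hyv⟩ := hrec φ hφG (φ v) hvx
      have hyv' : y ≠ v := fun e => hvR' (e ▸ hy)
      refine hφ v (mem_insert_self _ _) y (mem_insert_of_mem hy) ((clo_adj_v' hyv').2
        (Pool.Agent.OW.mem_cn.2 (Or.inr ⟨hyv', c'.RS (mem_sdiff.1 hy).1, hxy⟩))) hyv.symm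
  rcases le_total (tws G S b).card (tws G S a).card with h1 | h1
  · exact key a ha b hb hav hbv hab h1
  · exact (key b hb a ha hbv hav hab.symm h1).symm

end Pool.Agent.OK6
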